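import Mathlib
import Pool.Agent.H.MP_720825_lc.Main

namespace Pool.Agent.Results.MP_720825_lc.Undec

open Pool.Agent.H.MP_720825_lc

/-- a word: the letter `(j, true)` is `x_j`, the letter `(j, false)` is its inverse -/
abbrev Word := List (ℕ × Bool)

/-- value of a word in `G` under the assignment `g` -/
def ev {G : Type} [Group G] (g : ℕ → G) (W : Word) : G := (W.map fun p => cond p.2 (g p.1) (g p.1)⁻¹).prod

/-- substitute `σ j` for `x_j` (and the formal inverse of `σ j` for the inverse letter) -/
def subst (σ : ℕ → Word) (B : Word) : Word :=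
  B.flatMap fun p => cond p.2 (σ p.1) ((σ p.1).map fun q => (q.1, !q.2)).reverse

/-- words expressible in `Bs` on `G` -/
inductive Expr (G : Type) [Group G] (Bs : List Word) : Word → Prop
  | var (j : ℕ) : Expr G Bs [(j, true)]
  | sub (B : Word) (σ : ℕ → Word) : B ∈ Bs → (∀ p ∈ B, Expr G Bs (σ p.1)) → Expr G Bs (subst σ B)
  | eqv (W W' : Word) : Expr G Bs W → (∀ g : ℕ → G, ev g W = ev g W') → Expr G Bs W'

theorem ev_eq {G : Type} [Group G] (g : ℕ → G) (W : Word) : ev g W = FreeGroup.lift g (.mk W) := FreeGroup.lift_mk.symm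

theorem mk_subst (σ : ℕ → Word) (B : Word) : FreeGroup.mk (subst σ B) = FreeGroup.lift (fun j => .mk (σ j)) (.mk B) := by
  induction B with
  | nil => rfl
  | cons p B ih =>
    rw [subst, List.flatMap_cons, ← FreeGroup.mul_mk, ← subst, ih, ← List.singleton_append, ← FreeGroup.mul_mk, map_mul]
    obtain ⟨j, _ | _⟩ := p <;> simp <;> rfl

theorem expr_iff (Bs : List Word) (A : Word) : (∀ (G : Type) [Group G], Expr G Bs A) ↔ C (Bs.map .mk) (.mk A) := by
  classical
  refine ⟨fun h => ?_, fun h G _ => ?_⟩
  · replace h := h (FreeGroup ℕ)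
    induction h with
    | var j => exact .var j
    | sub B σ hB _ ih =>
      convert C.sub _ (fun j => if ∃ p ∈ B, p.1 = j then .mk (σ j) else .of j) (List.mem_map_of_mem hB) fun j => ?_ using 1
      · rw [mk_subst, FreeGroup.lift_mk, FreeGroup.lift_mk]
        exact congrArg _ (List.map_congr_left fun p hp => by rw [if_pos ⟨p, hp, rfl⟩])
      · split_ifs with k
        · obtain ⟨p, hp, rfl⟩ := k
          exact ih p hp
        · exact .var j
    | eqv W W' _ e ih => exact (show FreeGroup.mk W = .mk W' by simpa only [ev_eq, FreeGroup.lift_of_eq_id, MonoidHom.id_apply] using e .of) ▸ ih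
  · generalize e : FreeGroup.mk A = w at h
    induction h generalizing A with
    | var j => exact .eqv _ _ (.var j) fun g => by simp [ev_eq, e]
    | sub B σ hB _ ih =>
      obtain ⟨B, hB', rfl⟩ := List.mem_map.1 hB
      exact .eqv _ _ (.sub B (fun j => (σ j).toWord) hB' fun p _ => ih _ _ FreeGroup.mk_toWord) fun g => by
        simp only [ev_eq, e, mk_subst, FreeGroup.mk_toWord]

theorem result :
    ¬ ComputablePred fun x : Word × Word × List Word => ∀ (G : Type) [Group G], Expr G (x.2.1 :: x.2.2) x.1 := by
  obtain ⟨Φ, hΦ⟩ := main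
  intro h
  obtain ⟨c, hc, h⟩ := ComputablePred.computable_iff.1 h
  have rp : ∀ x : ℕ × Bool, Primrec fun n => List.replicate n x := fun x =>
    (Primrec.list_map Primrec.list_range (Primrec.const x).to₂).of_eq (by simp)
  have pr : ∀ B, Primrec fun n => subst (fun j => if j = 3 then List.replicate n (2, true) else [(j, true)]) B := fun B => by
    induction B with
    | nil => exact .const _
    | cons p B ih =>
      simp only [subst, List.flatMap_cons] at ih ⊢
      refine Primrec.list_append.comp ?_ ih
      obtain ⟨j, _ | _⟩ := p <;> by_cases k : j = 3 <;> simp [k, rp, Primrec.const]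
  refine hΦ (ComputablePred.computable_iff.2 ⟨_, hc.comp ((Primrec.const tg.toWord).pair ((pr Φ.toWord).pair
    (.const (ops.map (·.toWord))))).to_comp, funext fun n => ?_⟩)
  rw [← congrFun h, expr_iff, List.map_cons, mk_subst]
  have w : FreeGroup.mk (List.replicate n (2, true)) = .of 2 ^ n := by
    rw [← FreeGroup.toWord_of_pow, FreeGroup.mk_toWord]
  simp only [FreeGroup.mk_toWord, List.map_map, Function.comp_def, List.map_id', apply_ite FreeGroup.mk, w]
  rfl

end Pool.Agent.Results.MP_720825_lc.Undec
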